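import Mathlib
import Pool.Agent.Q206.BG.Homog

/-!
# MP_23d001_lc: a group with a good, totally categorical diagram and no infinite abelian subgroup

The group is the free group `B(ω, p)` of large prime exponent `p` on countably many generators, in
the language of groups with a unary predicate for the set of free generators.  The definitions of
types, diagrams, `D`-models, elementary maps, homogeneity, good and categorical diagrams are in
`Pool.Agent.Q206.BG.Def`.
-/

set_option autoImplicit false

namespace Pool.Agent.Results.MP_23d001_lc.NoInfiniteAbelianSubgroup

open Pool.Agent.Q206.BG Cardinal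

/-- There is an infinite group `G`, with one additional unary predicate, whose diagram is good and
categorical in every infinite cardinal, and in which every abelian subgroup is finite. -/
theorem result :
    ∃ (G : Type) (_ : Group G) (_ : LG.Structure G),
      IsGroupReduct G ∧ Infinite G ∧ Good LG (diagram LG G) ∧
      (∀ κ : Cardinal.{0}, ℵ₀ ≤ κ → Categorical LG (diagram LG G) κ) ∧
      ∀ H : Subgroup G, (∀ x ∈ H, ∀ y ∈ H, x * y = y * x) → Finite H := by
  obtain ⟨p0, h0⟩ := Pool.Agent.TH54.BU.burnside
  obtain ⟨p, hpp, hp⟩ := Nat.exists_infinite_primes p0
  have hB := h0 p hp hpp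
  exact ⟨B p ℕ, inferInstance, inferInstance, isGroupReduct_B, infinite_B hp.one_lt,
    good_B hp.one_lt, fun κ hκ => categorical_B hp.one_lt hκ,
    fun H hH => finite_of_commute hp hB H hH⟩

end Pool.Agent.Results.MP_23d001_lc.NoInfiniteAbelianSubgroup
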